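import Pool.Agent.Helper60.PlzA.Goals

/-!
For MP_8e7d5e_co, project PLA of helper60, packet BADCNT: few walks are not good.
-/

set_option autoImplicit false

namespace Pool.Agent.Helper87.PlzA

open Finset Pool.Agent.Helper93.Plz Pool.Agent.Helper60.PlzA

open scoped Classical

variable {V : Type}

theorem ev_win {k m : ℕ} (x : Fin (k + 1) → V) (i : ℕ) {l : ℕ} (hl : l ≤ m) :
    ev (fun j : Fin (m + 1) => ev x (i + (j : ℕ))) l = ev x (i + l) := by
  change ev x (i + min l m) = ev x (i + l)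
  rw [min_eq_left hl]

theorem ev_snoc {m : ℕ} (y : Fin (m + 1) → V) (w : V) {i : ℕ} (hi : i ≤ m) :
    ev (Fin.snoc (α := fun _ => V) y w : Fin (m + 1 + 1) → V) i = ev y i := by
  have e : (⟨min i (m + 1), Nat.lt_succ_of_le (min_le_right i (m + 1))⟩ : Fin (m + 1 + 1)) =
      Fin.castSucc ⟨min i m, Nat.lt_succ_of_le (min_le_right i m)⟩ := by
    apply Fin.ext
    simp only [Fin.val_castSucc]
    omega
  unfold ev
  rw [e, Fin.snoc_castSucc]

theorem ev_snoc_last {m : ℕ} (y : Fin (m + 1) → V) (w : V) :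
    ev (Fin.snoc (α := fun _ => V) y w : Fin (m + 1 + 1) → V) (m + 1) = w := by
  have e : (⟨min (m + 1) (m + 1), Nat.lt_succ_of_le (min_le_right (m + 1) (m + 1))⟩ :
      Fin (m + 1 + 1)) = Fin.last (m + 1) := by
    apply Fin.ext
    simp
  unfold ev
  rw [e, Fin.snoc_last]

theorem ev_cons_zero {m : ℕ} (y : Fin (m + 1) → V) (w : V) :
    ev (Fin.cons (α := fun _ => V) w y : Fin (m + 1 + 1) → V) 0 = w := by
  have e : (⟨min 0 (m + 1), Nat.lt_succ_of_le (min_le_right 0 (m + 1))⟩ :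
      Fin (m + 1 + 1)) = 0 := by
    apply Fin.ext
    simp
  unfold ev
  rw [e, Fin.cons_zero]

theorem ev_cons_succ {m : ℕ} (y : Fin (m + 1) → V) (w : V) (i : ℕ) :
    ev (Fin.cons (α := fun _ => V) w y : Fin (m + 1 + 1) → V) (i + 1) = ev y i := by
  have e : (⟨min (i + 1) (m + 1), Nat.lt_succ_of_le (min_le_right (i + 1) (m + 1))⟩ :
      Fin (m + 1 + 1)) = Fin.succ ⟨min i m, Nat.lt_succ_of_le (min_le_right i m)⟩ := by
    apply Fin.ext
    simp only [Fin.val_succ]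
    omega
  unfold ev
  rw [e, Fin.cons_succ]

variable [Fintype V] (G : SimpleGraph V)

theorem mem_Wk {k : ℕ} {x : Fin (k + 1) → V} :
    x ∈ Wk G k ↔ ∀ i < k, G.Adj (ev x i) (ev x (i + 1)) := by
  simp [Wk]

theorem mem_snoc {m : ℕ} (y : Fin (m + 1) → V) (w : V) :
    (Fin.snoc (α := fun _ => V) y w : Fin (m + 1 + 1) → V) ∈ Wk G (m + 1) ↔
      y ∈ Wk G m ∧ G.Adj (ev y m) w := by
  rw [mem_Wk, mem_Wk]
  constructor
  · intro h
    refine ⟨fun i hi => ?_, ?_⟩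
    · have := h i (by omega)
      rwa [ev_snoc y w (by omega), ev_snoc y w (by omega)] at this
    · have := h m (by omega)
      rwa [ev_snoc y w le_rfl, ev_snoc_last] at this
  · rintro ⟨h1, h2⟩ i hi
    rcases Nat.lt_or_ge i m with h | h
    · rw [ev_snoc y w (by omega), ev_snoc y w (by omega)]
      exact h1 i h
    · have : i = m := by omega
      subst this
      rw [ev_snoc y w le_rfl, ev_snoc_last]
      exact h2

theorem mem_cons {m : ℕ} (y : Fin (m + 1) → V) (w : V) :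
    (Fin.cons (α := fun _ => V) w y : Fin (m + 1 + 1) → V) ∈ Wk G (m + 1) ↔
      y ∈ Wk G m ∧ G.Adj w (ev y 0) := by
  rw [mem_Wk, mem_Wk]
  constructor
  · intro h
    refine ⟨fun i hi => ?_, ?_⟩
    · have := h (i + 1) (by omega)
      rwa [ev_cons_succ, ev_cons_succ] at this
    · have := h 0 (by omega)
      rwa [ev_cons_zero, ev_cons_succ] at this
  · rintro ⟨h1, h2⟩ i hi
    rcases Nat.eq_zero_or_pos i with h | h
    · subst h
      rw [ev_cons_zero, ev_cons_succ]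
      exact h2
    · obtain ⟨l, rfl⟩ : ∃ l, i = l + 1 := ⟨i - 1, by omega⟩
      rw [ev_cons_succ, ev_cons_succ]
      exact h1 l (by omega)

theorem sum_snoc (m : ℕ) (f : (Fin (m + 1 + 1) → V) → ℝ) :
    ∑ y ∈ Wk G (m + 1), f y =
      ∑ y ∈ Wk G m, ∑ w ∈ nbs G (ev y m), f (Fin.snoc (α := fun _ => V) y w) := by
  have h1 : ∑ y ∈ Wk G (m + 1), f y =
      ∑ y : Fin (m + 1 + 1) → V, if y ∈ Wk G (m + 1) then f y else 0 := by
    rw [← Finset.sum_filter]
    refine Finset.sum_congr ?_ fun _ _ => rfl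
    ext y
    simp
  rw [h1, ← (Fin.snocEquiv (fun _ : Fin (m + 1 + 1) => V)).sum_comp,
    Fintype.sum_prod_type_right]
  have h2 : ∑ y ∈ Wk G m, ∑ w ∈ nbs G (ev y m), f (Fin.snoc (α := fun _ => V) y w) =
      ∑ y : Fin (m + 1) → V, if y ∈ Wk G m then
        ∑ w ∈ nbs G (ev y m), f (Fin.snoc (α := fun _ => V) y w) else 0 := by
    rw [← Finset.sum_filter]
    refine Finset.sum_congr ?_ fun _ _ => rfl
    ext y
    simp
  rw [h2]
  refine Finset.sum_congr rfl fun y _ => ?_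
  have h3 : ∀ w : V, (Fin.snocEquiv (fun _ : Fin (m + 1 + 1) => V)) (w, y) =
      Fin.snoc (α := fun _ => V) y w := fun w => rfl
  simp only [h3, mem_snoc]
  by_cases hy : y ∈ Wk G m
  · simp only [hy, true_and, if_true]
    rw [nbs, Finset.sum_filter]
  · simp [hy]

theorem sum_cons (m : ℕ) (f : (Fin (m + 1 + 1) → V) → ℝ) :
    ∑ y ∈ Wk G (m + 1), f y =
      ∑ y ∈ Wk G m, ∑ w ∈ nbs G (ev y 0), f (Fin.cons (α := fun _ => V) w y) := by
  have h1 : ∑ y ∈ Wk G (m + 1), f y =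
      ∑ y : Fin (m + 1 + 1) → V, if y ∈ Wk G (m + 1) then f y else 0 := by
    rw [← Finset.sum_filter]
    refine Finset.sum_congr ?_ fun _ _ => rfl
    ext y
    simp
  rw [h1, ← (Fin.consEquiv (fun _ : Fin (m + 1 + 1) => V)).sum_comp,
    Fintype.sum_prod_type_right]
  have h2 : ∑ y ∈ Wk G m, ∑ w ∈ nbs G (ev y 0), f (Fin.cons (α := fun _ => V) w y) =
      ∑ y : Fin (m + 1) → V, if y ∈ Wk G m then
        ∑ w ∈ nbs G (ev y 0), f (Fin.cons (α := fun _ => V) w y) else 0 := by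
    rw [← Finset.sum_filter]
    refine Finset.sum_congr ?_ fun _ _ => rfl
    ext y
    simp
  rw [h2]
  refine Finset.sum_congr rfl fun y _ => ?_
  have h3 : ∀ w : V, (Fin.consEquiv (fun _ : Fin (m + 1 + 1) => V)) (w, y) =
      Fin.cons (α := fun _ => V) w y := fun w => rfl
  simp only [h3, mem_cons]
  by_cases hy : y ∈ Wk G m
  · simp only [hy, true_and, if_true]
    rw [nbs, Finset.sum_filter]
    refine Finset.sum_congr rfl fun w _ => ?_
    simp only [G.adj_comm w]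
  · simp [hy]

/-- different and not adjacent -/
def na (a b : V) : Prop := a ≠ b ∧ ¬ G.Adj a b

theorem cod_eq (a b : V) : (cod G a b : ℝ) = ∑ w ∈ nbs G b, if G.Adj a w then 1 else 0 := by
  rw [cod, cmn, Finset.card_filter, nbs, Finset.sum_filter]
  push_cast
  refine Finset.sum_congr rfl fun w _ => ?_
  by_cases h1 : G.Adj a w <;> by_cases h2 : G.Adj b w <;> simp [h1, h2]

/-- event (0) -/
theorem cnt0 (hW : S_WINU) (hP : S_PAIR) {t : ℕ} {γ : ℝ} (hR : Reg G t γ) (k i L : ℕ)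
    (hL : 1 ≤ L) (hk : i + L ≤ k) :
    ∑ x ∈ Wk G k, (if ev x i = ev x (i + L) then (1 : ℝ) else 0) ≤
      γ * Fintype.card V * (t : ℝ) ^ k := by
  have h1 := hW V _ G t hR.deg k i L hk (fun y => if ev y 0 = ev y L then (1 : ℝ) else 0)
    (fun y => by split_ifs <;> norm_num)
  simp only [ev_win _ _ (Nat.zero_le L), ev_win _ _ (le_refl L), add_zero] at h1
  have h2 := hP V _ G t hR.deg L hL (fun a b => if a = b then (1 : ℝ) else 0)
    (fun a b => by split_ifs <;> norm_num)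
  have h3 : ∑ a : V, ∑ b : V, (if a = b then (1 : ℝ) else 0) = Fintype.card V := by simp
  rw [h3] at h2
  refine h1.trans ((mul_le_mul_of_nonneg_left h2 (by positivity)).trans ?_)
  have e : (t : ℝ) ^ (k - L) * ((t : ℝ) ^ (L - 1) * Fintype.card V) =
      (t : ℝ) ^ (k - 1) * Fintype.card V * 1 := by
    rw [← mul_assoc, ← pow_add, mul_one]
    congr 2
    omega
  rw [e]
  refine (mul_le_mul_of_nonneg_left hR.one (by positivity)).trans (le_of_eq ?_)
  obtain ⟨l, rfl⟩ : ∃ l, k = l + 1 := ⟨k - 1, by omega⟩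
  rw [Nat.add_sub_cancel, pow_succ]
  ring

/-- event (a) -/
theorem cnta (hW : S_WINU) (hT : S_BTWO) {t : ℕ} {γ : ℝ} (hR : Reg G t γ) (k i L : ℕ)
    (hL : 1 ≤ L) (hk : i + L + 1 ≤ k) :
    ∑ x ∈ Wk G k, (if na G (ev x i) (ev x (i + L)) ∧ G.Adj (ev x i) (ev x (i + L + 1)) then
      (1 : ℝ) else 0) ≤ 2 * γ * Fintype.card V * (t : ℝ) ^ k := by
  have h1 := hW V _ G t hR.deg k i (L + 1) hk
    (fun y => if na G (ev y 0) (ev y L) ∧ G.Adj (ev y 0) (ev y (L + 1)) then (1 : ℝ) else 0)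
    (fun y => by split_ifs <;> norm_num)
  simp only [ev_win _ _ (Nat.zero_le (L + 1)), ev_win _ _ (Nat.le_succ L),
    ev_win _ _ (le_refl (L + 1)), add_zero] at h1
  have h2 := hT V _ G t γ hR L hL
  have h3 : ∑ y ∈ Wk G (L + 1), (if na G (ev y 0) (ev y L) ∧ G.Adj (ev y 0) (ev y (L + 1)) then
      (1 : ℝ) else 0) = ∑ y ∈ Wk G L, (if ev y 0 ≠ ev y L ∧ ¬ G.Adj (ev y 0) (ev y L) then
      (cod G (ev y 0) (ev y L) : ℝ) else 0) := by
    rw [sum_snoc]
    refine Finset.sum_congr rfl fun y _ => ?_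
    simp only [ev_snoc y _ (Nat.zero_le L), ev_snoc y _ (le_refl L), ev_snoc_last]
    by_cases hn : na G (ev y 0) (ev y L)
    · rw [if_pos (show ev y 0 ≠ ev y L ∧ ¬ G.Adj (ev y 0) (ev y L) from hn), cod_eq]
      simp only [hn, true_and]
    · rw [if_neg (show ¬ (ev y 0 ≠ ev y L ∧ ¬ G.Adj (ev y 0) (ev y L)) from hn)]
      simp [hn]
  rw [h3] at h1
  have h4 : (t : ℝ) ^ (k - (L + 1)) * (2 * γ * Fintype.card V * (t : ℝ) ^ (L + 1)) =
      2 * γ * Fintype.card V * (t : ℝ) ^ k := by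
    have : (t : ℝ) ^ k = (t : ℝ) ^ (k - (L + 1)) * (t : ℝ) ^ (L + 1) := by
      rw [← pow_add]; congr 1; omega
    rw [this]; ring
  rw [← h4]
  have e : i + (L + 1) = i + L + 1 := rfl
  rw [e] at h1
  exact h1.trans (mul_le_mul_of_nonneg_left h2 (by positivity))

/-- event (b) -/
theorem cntb (hW : S_WINU) (hT : S_BTWO) {t : ℕ} {γ : ℝ} (hR : Reg G t γ) (k i L : ℕ)
    (hL : 1 ≤ L) (hk : i + 1 + L ≤ k) :
    ∑ x ∈ Wk G k, (if na G (ev x (i + 1)) (ev x (i + 1 + L)) ∧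
      G.Adj (ev x i) (ev x (i + 1 + L)) then (1 : ℝ) else 0) ≤
      2 * γ * Fintype.card V * (t : ℝ) ^ k := by
  have h1 := hW V _ G t hR.deg k i (L + 1) (by omega)
    (fun y => if na G (ev y 1) (ev y (L + 1)) ∧ G.Adj (ev y 0) (ev y (L + 1)) then (1 : ℝ) else 0)
    (fun y => by split_ifs <;> norm_num)
  simp only [ev_win _ _ (Nat.zero_le (L + 1)), ev_win _ _ (Nat.succ_le_succ (Nat.zero_le L)),
    ev_win _ _ (le_refl (L + 1)), add_zero] at h1
  have h2 := hT V _ G t γ hR L hL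
  have h3 : ∑ y ∈ Wk G (L + 1), (if na G (ev y 1) (ev y (L + 1)) ∧
      G.Adj (ev y 0) (ev y (L + 1)) then
      (1 : ℝ) else 0) = ∑ y ∈ Wk G L, (if ev y 0 ≠ ev y L ∧ ¬ G.Adj (ev y 0) (ev y L) then
      (cod G (ev y 0) (ev y L) : ℝ) else 0) := by
    rw [sum_cons]
    refine Finset.sum_congr rfl fun y _ => ?_
    have e1 : ∀ w, ev (Fin.cons (α := fun _ => V) w y : Fin (L + 1 + 1) → V) 1 = ev y 0 :=
      fun w => ev_cons_succ y w 0
    simp only [e1, ev_cons_succ, ev_cons_zero]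
    by_cases hn : na G (ev y 0) (ev y L)
    · rw [if_pos (show ev y 0 ≠ ev y L ∧ ¬ G.Adj (ev y 0) (ev y L) from hn)]
      simp only [hn, true_and]
      have e2 : (cod G (ev y 0) (ev y L) : ℝ) = cod G (ev y L) (ev y 0) := by
        congr 1
        unfold cod cmn
        congr 1
        ext w
        simp [and_comm]
      rw [e2, cod_eq]
      refine Finset.sum_congr rfl fun w _ => ?_
      simp only [G.adj_comm w]
    · rw [if_neg (show ¬ (ev y 0 ≠ ev y L ∧ ¬ G.Adj (ev y 0) (ev y L)) from hn)]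
      simp [hn]
  rw [h3] at h1
  have h4 : (t : ℝ) ^ (k - (L + 1)) * (2 * γ * Fintype.card V * (t : ℝ) ^ (L + 1)) =
      2 * γ * Fintype.card V * (t : ℝ) ^ k := by
    have : (t : ℝ) ^ k = (t : ℝ) ^ (k - (L + 1)) * (t : ℝ) ^ (L + 1) := by
      rw [← pow_add]; congr 1; omega
    rw [this]; ring
  rw [← h4]
  have e : i + (L + 1) = i + 1 + L := by omega
  rw [e] at h1
  exact h1.trans (mul_le_mul_of_nonneg_left h2 (by positivity))

/-- the function of event (c) -/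
noncomputable def Fc (a c : V) : ℝ :=
  ∑ u, ∑ w, if na G a w ∧ (G.Adj a u ∧ G.Adj w u) ∧ (G.Adj a c ∧ G.Adj w c) then 1 else 0

theorem Fc_nonneg (a c : V) : 0 ≤ Fc G a c :=
  Finset.sum_nonneg fun _ _ => Finset.sum_nonneg fun _ _ => by split_ifs <;> norm_num

theorem cod_eq2 (a b : V) :
    (cod G a b : ℝ) = ∑ w, if G.Adj a w ∧ G.Adj b w then (1 : ℝ) else 0 := by
  rw [cod, cmn, Finset.card_filter]
  push_cast
  rfl

theorem sum_Fc : ∑ a, ∑ c, Fc G a c =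
    ∑ a, ∑ b, (if a ≠ b ∧ ¬ G.Adj a b then (cod G a b : ℝ) ^ 2 else 0) := by
  refine Finset.sum_congr rfl fun a _ => ?_
  unfold Fc
  have e1 : ∑ c, ∑ u, ∑ w, (if na G a w ∧ (G.Adj a u ∧ G.Adj w u) ∧ (G.Adj a c ∧ G.Adj w c) then
      (1 : ℝ) else 0) = ∑ w, ∑ c, ∑ u,
      (if na G a w ∧ (G.Adj a u ∧ G.Adj w u) ∧ (G.Adj a c ∧ G.Adj w c) then (1 : ℝ) else 0) := by
    have : ∀ c, ∑ u, ∑ w, (if na G a w ∧ (G.Adj a u ∧ G.Adj w u) ∧
        (G.Adj a c ∧ G.Adj w c) then (1 : ℝ) else 0) = ∑ w, ∑ u,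
        (if na G a w ∧ (G.Adj a u ∧ G.Adj w u) ∧ (G.Adj a c ∧ G.Adj w c) then (1 : ℝ) else 0) :=
      fun c => Finset.sum_comm
    simp only [this]
    exact Finset.sum_comm
  rw [e1]
  refine Finset.sum_congr rfl fun w _ => ?_
  by_cases hn : na G a w
  · rw [if_pos (show a ≠ w ∧ ¬ G.Adj a w from hn)]
    simp only [hn, true_and]
    rw [cod_eq2, pow_two, Finset.sum_mul_sum]
    refine Finset.sum_congr rfl fun c _ => Finset.sum_congr rfl fun u _ => ?_
    by_cases h1 : G.Adj a u ∧ G.Adj w u <;> by_cases h2 : G.Adj a c ∧ G.Adj w c <;> simp [h1, h2]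
  · rw [if_neg (show ¬ (a ≠ w ∧ ¬ G.Adj a w) from hn)]
    simp [hn]

/-- event (c) -/
theorem cntc (hW : S_WINU) (hP : S_PAIR) (hB : S_BONE) {t : ℕ} {γ : ℝ} (hR : Reg G t γ)
    (k i L : ℕ) (hL : 1 ≤ L) (hk : i + (L + 2) ≤ k) :
    ∑ x ∈ Wk G k, (if na G (ev x i) (ev x (i + (L + 2))) ∧ G.Adj (ev x i) (ev x (i + (L + 1))) ∧
      G.Adj (ev x i) (ev x (i + L)) ∧ G.Adj (ev x (i + L)) (ev x (i + (L + 2))) then
      (1 : ℝ) else 0) ≤ 2 * γ * Fintype.card V * (t : ℝ) ^ k := by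
  have h1 := hW V _ G t hR.deg k i (L + 2) hk
    (fun y => if na G (ev y 0) (ev y (L + 2)) ∧ G.Adj (ev y 0) (ev y (L + 1)) ∧
      G.Adj (ev y 0) (ev y L) ∧ G.Adj (ev y L) (ev y (L + 2)) then (1 : ℝ) else 0)
    (fun y => by split_ifs <;> norm_num)
  simp only [ev_win _ _ (Nat.zero_le (L + 2)), ev_win _ _ (show L ≤ L + 2 by omega),
    ev_win _ _ (show L + 1 ≤ L + 2 by omega), ev_win _ _ (le_refl (L + 2)), add_zero] at h1
  have h3 : ∑ y ∈ Wk G (L + 2), (if na G (ev y 0) (ev y (L + 2)) ∧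
      G.Adj (ev y 0) (ev y (L + 1)) ∧
      G.Adj (ev y 0) (ev y L) ∧ G.Adj (ev y L) (ev y (L + 2)) then (1 : ℝ) else 0) ≤
      ∑ y ∈ Wk G L, Fc G (ev y 0) (ev y L) := by
    rw [sum_snoc G (L + 1), sum_snoc G L]
    refine Finset.sum_le_sum fun y _ => ?_
    have e1 : ∀ u w : V, ev (Fin.snoc (α := fun _ => V) (Fin.snoc (α := fun _ => V) y u :
        Fin (L + 1 + 1) → V) w : Fin (L + 1 + 1 + 1) → V) 0 = ev y 0 := fun u w => by
      rw [ev_snoc _ _ (Nat.zero_le _), ev_snoc _ _ (Nat.zero_le _)]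
    have e2 : ∀ u w : V, ev (Fin.snoc (α := fun _ => V) (Fin.snoc (α := fun _ => V) y u :
        Fin (L + 1 + 1) → V) w : Fin (L + 1 + 1 + 1) → V) L = ev y L := fun u w => by
      rw [ev_snoc _ _ (by omega), ev_snoc _ _ le_rfl]
    have e3 : ∀ u w : V, ev (Fin.snoc (α := fun _ => V) (Fin.snoc (α := fun _ => V) y u :
        Fin (L + 1 + 1) → V) w : Fin (L + 1 + 1 + 1) → V) (L + 1) = u := fun u w => by
      rw [ev_snoc _ _ le_rfl, ev_snoc_last]
    have e4 : ∀ u w : V, ev (Fin.snoc (α := fun _ => V) (Fin.snoc (α := fun _ => V) y u :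
        Fin (L + 1 + 1) → V) w : Fin (L + 1 + 1 + 1) → V) (L + 2) = w := fun u w =>
      ev_snoc_last _ _
    simp only [e1, e2, e3, e4, ev_snoc_last]
    unfold Fc
    rw [nbs, Finset.sum_filter]
    refine Finset.sum_le_sum fun u _ => ?_
    split_ifs with hu
    · rw [nbs, Finset.sum_filter]
      refine Finset.sum_le_sum fun w _ => ?_
      split_ifs with hw hc hd hd hc
      · exact le_rfl
      · exact absurd ⟨hc.1, ⟨hc.2.1, hw.symm⟩, hc.2.2.1, hc.2.2.2.symm⟩ hd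
      · exact zero_le_one
      · exact le_rfl
      · exact zero_le_one
      · exact le_rfl
    · exact Finset.sum_nonneg fun w _ => by split_ifs <;> norm_num
  have h5 := hP V _ G t hR.deg L hL (Fc G) (Fc_nonneg G)
  rw [sum_Fc] at h5
  have h6 := hB V _ G t γ hR
  have h7 : ∑ y ∈ Wk G L, Fc G (ev y 0) (ev y L) ≤
      (t : ℝ) ^ (L - 1) * (2 * γ * Fintype.card V * (t : ℝ) ^ 3) :=
    h5.trans (mul_le_mul_of_nonneg_left h6 (by positivity))
  have h8 := mul_le_mul_of_nonneg_left (h3.trans h7) (show (0 : ℝ) ≤ (t : ℝ) ^ (k - (L + 2)) by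
    positivity)
  refine h1.trans (h8.trans (le_of_eq ?_))
  have : (t : ℝ) ^ k = (t : ℝ) ^ (k - (L + 2)) * ((t : ℝ) ^ (L - 1) * (t : ℝ) ^ 3) := by
    rw [← pow_add, ← pow_add]; congr 1; omega
  rw [this]; ring

/-- all events for the pair `i`, `j` -/
noncomputable def tot {k : ℕ} (x : Fin (k + 1) → V) (i j : ℕ) : ℝ :=
  (if ev x i = ev x j then 1 else 0) +
  (if i + 2 ≤ j ∧ j + 1 ≤ k ∧ na G (ev x i) (ev x j) ∧ G.Adj (ev x i) (ev x (j + 1))
    then 1 else 0) +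
  (if 1 ≤ i ∧ i + 2 ≤ j ∧ na G (ev x i) (ev x j) ∧ G.Adj (ev x (i - 1)) (ev x j)
    then 1 else 0) +
  (if i + 3 ≤ j ∧ na G (ev x i) (ev x j) ∧ G.Adj (ev x i) (ev x (j - 1)) ∧
      G.Adj (ev x i) (ev x (j - 2)) ∧ G.Adj (ev x (j - 2)) (ev x j) then 1 else 0)

omit [Fintype V] in
theorem tot_nonneg {k : ℕ} (x : Fin (k + 1) → V) (i j : ℕ) : 0 ≤ tot G x i j := by
  unfold tot
  have h : ∀ (p : Prop) [Decidable p], (0 : ℝ) ≤ if p then 1 else 0 :=
    fun p _ => by split_ifs <;> norm_num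
  exact add_nonneg (add_nonneg (add_nonneg (h _) (h _)) (h _)) (h _)

theorem sum_tot (hW : S_WINU) (hP : S_PAIR) (hB : S_BONE) (hT : S_BTWO) {t : ℕ} {γ : ℝ}
    (hR : Reg G t γ) (k i j : ℕ) (hij : i < j) (hk : j ≤ k) :
    ∑ x ∈ Wk G k, tot G x i j ≤ 7 * (γ * Fintype.card V * (t : ℝ) ^ k) := by
  obtain ⟨L, hL, rfl⟩ : ∃ L, 1 ≤ L ∧ j = i + L := ⟨j - i, by omega, by omega⟩
  have hγ : 0 ≤ γ * Fintype.card V * (t : ℝ) ^ k := by
    have h1 := hR.one
    have h2 : 0 < γ := by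
      by_contra hc
      have : γ * t ≤ 0 := mul_nonpos_of_nonpos_of_nonneg (not_lt.1 hc) (Nat.cast_nonneg t)
      linarith
    positivity
  unfold tot
  rw [Finset.sum_add_distrib, Finset.sum_add_distrib, Finset.sum_add_distrib]
  have b0 := cnt0 G hW hP hR k i L hL hk
  have b1 : ∑ x ∈ Wk G k, (if i + 2 ≤ i + L ∧ i + L + 1 ≤ k ∧ na G (ev x i) (ev x (i + L)) ∧
      G.Adj (ev x i) (ev x (i + L + 1)) then (1 : ℝ) else 0) ≤
      2 * (γ * Fintype.card V * (t : ℝ) ^ k) := by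
    by_cases h : i + 2 ≤ i + L ∧ i + L + 1 ≤ k
    · have := cnta G hW hT hR k i L hL h.2
      simp only [h.1, h.2, true_and]
      linarith
    · have e : ∀ x : Fin (k + 1) → V, (if i + 2 ≤ i + L ∧ i + L + 1 ≤ k ∧
          na G (ev x i) (ev x (i + L)) ∧ G.Adj (ev x i) (ev x (i + L + 1)) then (1 : ℝ) else 0) =
          0 := fun x => if_neg fun hc => h ⟨hc.1, hc.2.1⟩
      simp only [e, Finset.sum_const_zero]
      linarith
  have b2 : ∑ x ∈ Wk G k, (if 1 ≤ i ∧ i + 2 ≤ i + L ∧ na G (ev x i) (ev x (i + L)) ∧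
      G.Adj (ev x (i - 1)) (ev x (i + L)) then (1 : ℝ) else 0) ≤
      2 * (γ * Fintype.card V * (t : ℝ) ^ k) := by
    by_cases h : 1 ≤ i ∧ i + 2 ≤ i + L
    · obtain ⟨i', rfl⟩ : ∃ i', i = i' + 1 := ⟨i - 1, by omega⟩
      have := cntb G hW hT hR k i' L hL (by omega)
      simp only [h.1, h.2, true_and, Nat.add_sub_cancel]
      linarith
    · have e : ∀ x : Fin (k + 1) → V, (if 1 ≤ i ∧ i + 2 ≤ i + L ∧
          na G (ev x i) (ev x (i + L)) ∧
          G.Adj (ev x (i - 1)) (ev x (i + L)) then (1 : ℝ) else 0) = 0 :=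
        fun x => if_neg fun hc => h ⟨hc.1, hc.2.1⟩
      simp only [e, Finset.sum_const_zero]
      linarith
  have b3 : ∑ x ∈ Wk G k, (if i + 3 ≤ i + L ∧ na G (ev x i) (ev x (i + L)) ∧
      G.Adj (ev x i) (ev x (i + L - 1)) ∧ G.Adj (ev x i) (ev x (i + L - 2)) ∧
      G.Adj (ev x (i + L - 2)) (ev x (i + L)) then (1 : ℝ) else 0) ≤
      2 * (γ * Fintype.card V * (t : ℝ) ^ k) := by
    by_cases h : i + 3 ≤ i + L
    · obtain ⟨L', rfl⟩ : ∃ L', L = L' + 2 := ⟨L - 2, by omega⟩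
      have := cntc G hW hP hB hR k i L' (by omega) hk
      have e1 : i + (L' + 2) - 1 = i + (L' + 1) := by omega
      have e2 : i + (L' + 2) - 2 = i + L' := by omega
      simp only [h, true_and, e1, e2]
      linarith
    · have e : ∀ x : Fin (k + 1) → V, (if i + 3 ≤ i + L ∧ na G (ev x i) (ev x (i + L)) ∧
          G.Adj (ev x i) (ev x (i + L - 1)) ∧ G.Adj (ev x i) (ev x (i + L - 2)) ∧
          G.Adj (ev x (i + L - 2)) (ev x (i + L)) then (1 : ℝ) else 0) = 0 :=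
        fun x => if_neg fun hc => h hc.1
      simp only [e, Finset.sum_const_zero]
      linarith
  linarith

/-- a walk that is not good has an event -/
theorem exists_event (hG : S_GOODEV) {k : ℕ} {x : Fin (k + 1) → V} (hx : x ∈ Wk G k)
    (hb : ¬ Good G x) : ∃ j ≤ k, ∃ i < j, 1 ≤ tot G x i j := by
  by_contra hcon
  push Not at hcon
  have hz : ∀ i j, i < j → j ≤ k → tot G x i j < 1 := fun i j h1 h2 => hcon j h2 i h1
  have h01 : ∀ (p : Prop) [Decidable p], (0 : ℝ) ≤ if p then 1 else 0 :=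
    fun p _ => by split_ifs <;> norm_num
  have n0 : ∀ i j, i < j → j ≤ k → ev x i ≠ ev x j := by
    intro i j h1 h2 he
    have := hz i j h1 h2
    unfold tot at this
    rw [if_pos he] at this
    linarith [h01 (i + 2 ≤ j ∧ j + 1 ≤ k ∧ na G (ev x i) (ev x j) ∧
      G.Adj (ev x i) (ev x (j + 1))), h01 (1 ≤ i ∧ i + 2 ≤ j ∧ na G (ev x i) (ev x j) ∧
      G.Adj (ev x (i - 1)) (ev x j)), h01 (i + 3 ≤ j ∧ na G (ev x i) (ev x j) ∧
      G.Adj (ev x i) (ev x (j - 1)) ∧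
      G.Adj (ev x i) (ev x (j - 2)) ∧ G.Adj (ev x (j - 2)) (ev x j))]
  have hinj : Function.Injective x := by
    intro a b hab
    by_contra hne
    have key : ∀ a b : Fin (k + 1), a < b → x a ≠ x b := by
      intro a b hlt
      have h3 := n0 a.1 b.1 hlt (Nat.lt_succ_iff.1 b.2)
      have ea : ∀ c : Fin (k + 1), ev x c.1 = x c := by
        intro c
        unfold ev
        congr 1
        apply Fin.ext
        exact min_eq_left (Nat.lt_succ_iff.1 c.2)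
      rwa [ea, ea] at h3
    rcases lt_or_gt_of_ne hne with h | h
    · exact key a b h hab
    · exact key b a h hab.symm
  apply hb
  refine hG V _ G k x hx hinj ?_ ?_ ?_
  · intro i j h1 h2 h3 h4
    have h5 := hz i j (by omega) (by omega)
    have h6 : i + 2 ≤ j ∧ j + 1 ≤ k ∧ na G (ev x i) (ev x j) ∧ G.Adj (ev x i) (ev x (j + 1)) :=
      ⟨h1, h2, ⟨n0 i j (by omega) (by omega), h3⟩, h4⟩
    unfold tot at h5
    rw [if_pos h6] at h5
    linarith [h01 (ev x i = ev x j), h01 (1 ≤ i ∧ i + 2 ≤ j ∧ na G (ev x i) (ev x j) ∧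
      G.Adj (ev x (i - 1)) (ev x j)), h01 (i + 3 ≤ j ∧ na G (ev x i) (ev x j) ∧
      G.Adj (ev x i) (ev x (j - 1)) ∧
      G.Adj (ev x i) (ev x (j - 2)) ∧ G.Adj (ev x (j - 2)) (ev x j))]
  · intro i j h0 h1 h2 h3 h4
    have h5 := hz i j (by omega) (by omega)
    have h6 : 1 ≤ i ∧ i + 2 ≤ j ∧ na G (ev x i) (ev x j) ∧ G.Adj (ev x (i - 1)) (ev x j) :=
      ⟨h0, h1, ⟨n0 i j (by omega) (by omega), h3⟩, h4⟩
    unfold tot at h5
    rw [if_pos h6] at h5
    linarith [h01 (ev x i = ev x j), h01 (i + 2 ≤ j ∧ j + 1 ≤ k ∧ na G (ev x i) (ev x j) ∧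
      G.Adj (ev x i) (ev x (j + 1))), h01 (i + 3 ≤ j ∧ na G (ev x i) (ev x j) ∧
      G.Adj (ev x i) (ev x (j - 1)) ∧
      G.Adj (ev x i) (ev x (j - 2)) ∧ G.Adj (ev x (j - 2)) (ev x j))]
  · intro i j h1 h2 h3 h4 h7
    by_contra h8
    have h5 := hz i j (by omega) (by omega)
    have h6 : i + 3 ≤ j ∧ na G (ev x i) (ev x j) ∧ G.Adj (ev x i) (ev x (j - 1)) ∧
      G.Adj (ev x i) (ev x (j - 2)) ∧ G.Adj (ev x (j - 2)) (ev x j) :=
      ⟨h1, ⟨n0 i j (by omega) (by omega), h8⟩, h3, h4, h7⟩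
    unfold tot at h5
    rw [if_pos h6] at h5
    linarith [h01 (ev x i = ev x j), h01 (i + 2 ≤ j ∧ j + 1 ≤ k ∧ na G (ev x i) (ev x j) ∧
      G.Adj (ev x i) (ev x (j + 1))), h01 (1 ≤ i ∧ i + 2 ≤ j ∧ na G (ev x i) (ev x j) ∧
      G.Adj (ev x (i - 1)) (ev x j))]

theorem badcnt (h1 : S_GOODEV) (h2 : S_WINU) (h3 : S_PAIR) (h4 : S_BONE) (h5 : S_BTWO) :
    S_BADCNT := by
  intro V _ G t γ hR k
  have hγ : 0 ≤ γ * Fintype.card V * (t : ℝ) ^ k := by
    have h1 := hR.one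
    have h2 : 0 < γ := by
      by_contra hc
      have : γ * t ≤ 0 := mul_nonpos_of_nonpos_of_nonneg (not_lt.1 hc) (Nat.cast_nonneg t)
      linarith
    positivity
  have e1 : (((Wk G k).filter fun x => ¬ Good G x).card : ℝ) =
      ∑ x ∈ Wk G k, if ¬ Good G x then (1 : ℝ) else 0 := by
    rw [Finset.card_filter]
    push_cast
    rfl
  have e2 : ∑ x ∈ Wk G k, (if ¬ Good G x then (1 : ℝ) else 0) ≤
      ∑ x ∈ Wk G k, ∑ j ∈ range (k + 1), ∑ i ∈ range j, tot G x i j := by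
    refine Finset.sum_le_sum fun x hx => ?_
    by_cases hb : ¬ Good G x
    · rw [if_pos hb]
      obtain ⟨j, hj, i, hi, hij⟩ := exists_event G h1 hx hb
      have s1 : tot G x i j ≤ ∑ i ∈ range j, tot G x i j :=
        Finset.single_le_sum (f := fun i => tot G x i j) (fun i _ => tot_nonneg G x i j)
          (Finset.mem_range.2 hi)
      have s2 : ∑ i ∈ range j, tot G x i j ≤
          ∑ j ∈ range (k + 1), ∑ i ∈ range j, tot G x i j :=
        Finset.single_le_sum (f := fun j => ∑ i ∈ range j, tot G x i j)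
          (fun j _ => Finset.sum_nonneg fun i _ => tot_nonneg G x i j)
          (Finset.mem_range.2 (by omega))
      linarith
    · rw [if_neg hb]
      exact Finset.sum_nonneg fun j _ => Finset.sum_nonneg fun i _ => tot_nonneg G x i j
  have e3 : ∑ x ∈ Wk G k, ∑ j ∈ range (k + 1), ∑ i ∈ range j, tot G x i j =
      ∑ j ∈ range (k + 1), ∑ i ∈ range j, ∑ x ∈ Wk G k, tot G x i j := by
    rw [Finset.sum_comm]
    exact Finset.sum_congr rfl fun j _ => Finset.sum_comm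
  have e4 : ∑ j ∈ range (k + 1), ∑ i ∈ range j, ∑ x ∈ Wk G k, tot G x i j ≤
      ∑ j ∈ range (k + 1), ∑ i ∈ range j, 7 * (γ * Fintype.card V * (t : ℝ) ^ k) := by
    refine Finset.sum_le_sum fun j hj => Finset.sum_le_sum fun i hi => ?_
    rw [Finset.mem_range] at hj hi
    exact sum_tot G h2 h3 h4 h5 hR k i j hi (by omega)
  have e5 : ∑ j ∈ range (k + 1), ∑ i ∈ range j, 7 * (γ * Fintype.card V * (t : ℝ) ^ k) =
      (∑ j ∈ range (k + 1), (j : ℝ)) * (7 * (γ * Fintype.card V * (t : ℝ) ^ k)) := by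
    rw [Finset.sum_mul]
    refine Finset.sum_congr rfl fun j _ => ?_
    rw [Finset.sum_const, Finset.card_range, nsmul_eq_mul]
  have e6 : (∑ j ∈ range (k + 1), (j : ℝ)) * 2 = (k + 1) * k := by
    have := Finset.sum_range_id_mul_two (k + 1)
    have h : (((∑ j ∈ range (k + 1), j) * 2 : ℕ) : ℝ) = (((k + 1) * (k + 1 - 1) : ℕ) : ℝ) := by
      exact_mod_cast this
    push_cast at h
    simpa using h
  rw [e1]
  refine e2.trans (e3.le.trans (e4.trans ?_))
  rw [e5]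
  have e7 : (∑ j ∈ range (k + 1), (j : ℝ)) = (k + 1) * k / 2 := by linarith
  rw [e7]
  have e8 : ((k : ℝ) + 1) * k / 2 * (7 * (γ * Fintype.card V * (t : ℝ) ^ k)) =
      (7 / 2 * (((k : ℝ) + 1) * k)) * (γ * Fintype.card V * (t : ℝ) ^ k) := by ring
  have e9 : 4 * ((k : ℝ) + 1) ^ 2 * γ * Fintype.card V * (t : ℝ) ^ k =
      (4 * ((k : ℝ) + 1) ^ 2) * (γ * Fintype.card V * (t : ℝ) ^ k) := by ring
  rw [e8, e9]
  refine mul_le_mul_of_nonneg_right ?_ hγ
  have : (0 : ℝ) ≤ k := Nat.cast_nonneg k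
  nlinarith

end Pool.Agent.Helper87.PlzA
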